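import Mathlib
import Pool.Agent.Q89.OC1
import Pool.Agent.Q89.OC2
import Pool.Agent.Q89.OC3

/-!
# MP_6bdd40: orders of elements at nonzero values of irreducible characters of odd `p`-groups

Q1 is false for `p = 3`: there is a group of order `3^90` with an irreducible complex character `χ`
of degree `3^44`, so `|P| / χ(1)^2 = 9`, and an element `x` of order `27` with `χ(x) ≠ 0`.
-/

open Pool.Agent.Q89.OC

namespace Pool.Agent.Results.MP_6bdd40_al.OrderNotDividing

theorem result :
    (∃ (P : Type) (_ : Group P) (_ : Finite P) (V : Type) (_ : AddCommGroup V) (_ : Module ℂ V)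
      (_ : FiniteDimensional ℂ V) (ρ : Representation ℂ P V) (x : P),
      Nat.card P = 3 ^ 90 ∧ Module.finrank ℂ V = 3 ^ 44 ∧ ρ.IsIrreducible ∧
        ρ.character x ≠ 0 ∧ orderOf x = 27) ∧
    ¬ (∀ (p : ℕ), p.Prime → Odd p → ∀ (P : Type) [Group P] [Finite P], IsPGroup p P →
      ∀ (V : Type) [AddCommGroup V] [Module ℂ V] [FiniteDimensional ℂ V]
        (ρ : Representation ℂ P V), ρ.IsIrreducible →
        ∀ x : P, ρ.character x ≠ 0 → orderOf x ∣ Nat.card P / (Module.finrank ℂ V) ^ 2) := by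
  have key : ∃ (P : Type) (_ : Group P) (_ : Finite P) (V : Type) (_ : AddCommGroup V)
      (_ : Module ℂ V) (_ : FiniteDimensional ℂ V) (ρ : Representation ℂ P V) (x : P),
      Nat.card P = 3 ^ 90 ∧ Module.finrank ℂ V = 3 ^ 44 ∧ ρ.IsIrreducible ∧
        ρ.character x ≠ 0 ∧ orderOf x = 27 := by
    obtain ⟨h1, h2, x, h3, h4, h5⟩ := generic (T := T) (M := M) v y 9 free far card_M_T
    have hfin : Finite (AddChar M ℂ ⋊[act T M] T) :=
      Finite.of_equiv _ (SemidirectProduct.equivProd (φ := act T M)).symm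
    have hT : Module.finrank ℂ (T → ℂ) = 3 ^ 44 := by
      have := Fintype.ofFinite T
      rw [Module.finrank_fintype_fun_eq_card, ← Nat.card_eq_fintype_card, card_T_eq]
    refine ⟨AddChar M ℂ ⋊[act T M] T, inferInstance, hfin, T → ℂ, inferInstance, inferInstance,
      inferInstance, mon T v, x, ?_, hT, h1, h3, ?_⟩
    · rw [h2, hT]
      norm_num
    · have h6 : orderOf x ∣ 3 ^ 3 := by
        apply orderOf_dvd_of_pow_eq_one
        exact h5 27 pow_M
      obtain ⟨k, hk, hk'⟩ := (Nat.dvd_prime_pow Nat.prime_three).1 h6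
      have h7 : ¬ k ≤ 2 := by
        intro hk2
        apply h4
        rw [hk']
        exact pow_dvd_pow 3 hk2
      have h8 : k = 3 := by omega
      rw [hk', h8]
      norm_num
  refine ⟨key, ?_⟩
  obtain ⟨P, i1, i2, V, i3, i4, i5, ρ, x, hP, hV, hρ, hx, ho⟩ := key
  intro h
  have h1 := h 3 Nat.prime_three (by decide) P (IsPGroup.of_card hP) V ρ hρ x hx
  rw [hP, hV, ho] at h1
  norm_num at h1

end Pool.Agent.Results.MP_6bdd40_al.OrderNotDividing
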